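import Mathlib
import Pool.Agent.H37.EtfSig

/-!
# From an equiangular tight frame to its signature matrix
-/

namespace Pool.Agent.H54.Etf

open Matrix Pool.Agent.H37.Etf
open scoped InnerProductSpace

lemma etf_frame_op {n d : ℕ} {f : Fin n → EuclideanSpace ℂ (Fin d)} {A : ℝ}
    (h : ∀ x, ∑ i, ‖⟪x, f i⟫_ℂ‖ ^ 2 = A * ‖x‖ ^ 2) (x : EuclideanSpace ℂ (Fin d)) :
    ∑ k, ⟪f k, x⟫_ℂ • f k = (A : ℂ) • x := by
  let F : EuclideanSpace ℂ (Fin d) →ₗ[ℂ] EuclideanSpace ℂ (Fin d) :=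
    (∑ k, ((innerSL ℂ (f k)).toLinearMap.smulRight (f k))) - (A : ℂ) • LinearMap.id
  have hF : ∀ x, F x = ∑ k, ⟪f k, x⟫_ℂ • f k - (A : ℂ) • x := by
    intro x
    simp [F]
  have h0 : F = 0 := by
    rw [← inner_map_self_eq_zero]
    intro x
    rw [hF, inner_sub_left, sum_inner, inner_smul_left, inner_self_eq_norm_sq_to_K, sub_eq_zero]
    have h1 := h x
    have h2 : ∀ k, ⟪⟪f k, x⟫_ℂ • f k, x⟫_ℂ = ((‖⟪x, f k⟫_ℂ‖ ^ 2 : ℝ) : ℂ) := by
      intro k
      rw [inner_smul_left, inner_conj_symm, norm_inner_symm, ← Complex.normSq_eq_norm_sq,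
        ← Complex.mul_conj, inner_conj_symm]
      ring
    rw [Finset.sum_congr rfl (fun k _ => h2 k), ← Complex.ofReal_sum, h1, Complex.conj_ofReal]
    push_cast
    rfl
  have := hF x
  rw [h0, LinearMap.zero_apply] at this
  exact (sub_eq_zero.1 this.symm)

lemma exists_signature {n d : ℕ} {f : Fin n → EuclideanSpace ℂ (Fin d)} (hf : IsETF f)
    (hn : 2 ≤ n) (h : 16 * ((n : ℝ) - 2 * d) ^ 2 ≤ 9 * n) :
    ∃ (T : Matrix (Fin n) (Fin n) ℂ) (μ : ℝ), Tᴴ = T ∧ (∀ x, T x x = 0) ∧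
      (∀ x y, x ≠ y → ‖T x y‖ = 1) ∧
      T * T = ((n : ℂ) - 1) • (1 : Matrix (Fin n) (Fin n) ℂ) + (μ : ℂ) • T ∧ μ ^ 2 ≤ 9 / 4 ∧
      ((n : ℝ) = 2 * d → μ = 0) := by
  obtain ⟨A, hA, ht⟩ := hf.tight
  obtain ⟨c, hc⟩ := hf.equiangular
  have hn' : (2 : ℝ) ≤ n := by exact_mod_cast hn
  set G : Matrix (Fin n) (Fin n) ℂ := Matrix.of fun i j => ⟪f i, f j⟫_ℂ with hG
  have hGd : ∀ i, G i i = 1 := by
    intro i
    rw [hG, Matrix.of_apply, inner_self_eq_norm_sq_to_K, hf.unit]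
    simp
  have hGH : Gᴴ = G := by
    ext i j
    rw [hG, conjTranspose_apply, Matrix.of_apply, Matrix.of_apply]
    exact inner_conj_symm _ _
  have hGG : G * G = (A : ℂ) • G := by
    ext i j
    rw [Matrix.mul_apply, Matrix.smul_apply, smul_eq_mul]
    have h1 := congrArg (fun v => ⟪f i, v⟫_ℂ) (etf_frame_op ht (f j))
    simp only [inner_sum, inner_smul_right] at h1
    rw [hG]
    simp only [Matrix.of_apply]
    rw [← h1]
    exact Finset.sum_congr rfl (fun k _ => mul_comm _ _)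
  -- trace
  have hAd : A * d = n := by
    have h1 : ∑ b : Fin d, ∑ i, ‖⟪EuclideanSpace.basisFun (Fin d) ℂ b, f i⟫_ℂ‖ ^ 2 = A * d := by
      rw [Finset.sum_congr rfl (fun b _ => ht _)]
      simp [mul_comm]
    rw [Finset.sum_comm] at h1
    rw [← h1, Finset.sum_congr rfl (fun i _ =>
      (EuclideanSpace.basisFun (Fin d) ℂ).sum_sq_norm_inner_right (f i))]
    simp [hf.unit]
  -- diagonal
  have hrow : 1 + ((n : ℝ) - 1) * c ^ 2 = A := by
    have i : Fin n := ⟨0, by omega⟩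
    have h1 := congrFun (congrFun hGG i) i
    rw [Matrix.mul_apply, Matrix.smul_apply, smul_eq_mul, hGd, mul_one] at h1
    have h2 : ∀ k, G i k * G k i = ((if k = i then (1 : ℝ) else c ^ 2 : ℝ) : ℂ) := by
      intro k
      split_ifs with hk
      · subst hk
        rw [hGd]
        simp
      · have h3 : G k i = (starRingEnd ℂ) (G i k) := by
          rw [hG, Matrix.of_apply, Matrix.of_apply, inner_conj_symm]
        rw [h3, Complex.mul_conj, Complex.normSq_eq_norm_sq, hG, Matrix.of_apply,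
          hc i k (Ne.symm hk)]
    rw [Finset.sum_congr rfl (fun k _ => h2 k), ← Complex.ofReal_sum] at h1
    have h4 : ∑ k, (if k = i then (1 : ℝ) else c ^ 2) = 1 + ((n : ℝ) - 1) * c ^ 2 := by
      rw [← Finset.add_sum_erase _ _ (Finset.mem_univ i), if_pos rfl,
        Finset.sum_congr rfl (fun k hk => if_neg (Finset.ne_of_mem_erase hk)), Finset.sum_const,
        Finset.card_erase_of_mem (Finset.mem_univ i), Finset.card_univ, Fintype.card_fin,
        nsmul_eq_mul, Nat.cast_sub (by omega)]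
      simp
    rw [h4] at h1
    exact_mod_cast h1
  have hd0 : (0 : ℝ) < d := by
    rcases Nat.eq_zero_or_pos d with hd | hd
    · rw [hd] at hAd
      simp at hAd
      rw [← hAd] at hn'
      norm_num at hn'
    · exact_mod_cast hd
  have hc0 : 0 ≤ c := by
    have := hc ⟨0, by omega⟩ ⟨1, by omega⟩ (by simp)
    rw [← this]
    exact norm_nonneg _
  have hc1 : c ≠ 0 := by
    intro h0
    rw [h0] at hrow
    have hA1 : A = 1 := by linarith
    rw [hA1, one_mul] at hAd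
    rw [← hAd] at h hn'
    nlinarith
  have hcC : (c : ℂ) ≠ 0 := by exact_mod_cast hc1
  have hcp : 0 < c := lt_of_le_of_ne hc0 (Ne.symm hc1)
  refine ⟨(c : ℂ)⁻¹ • (G - 1), (A - 2) / c, ?_, ?_, ?_, ?_, ?_, ?_⟩
  · rw [conjTranspose_smul, conjTranspose_sub, hGH, conjTranspose_one]
    simp
  · intro x
    rw [Matrix.smul_apply, Matrix.sub_apply, hGd, one_apply_eq, sub_self, smul_zero]
  · intro x y hxy
    rw [Matrix.smul_apply, Matrix.sub_apply, one_apply_ne hxy, sub_zero, norm_smul, norm_inv,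
      Complex.norm_real, Real.norm_eq_abs, abs_of_pos hcp, hG, Matrix.of_apply, hc x y hxy,
      inv_mul_cancel₀ hc1]
  · have hrowC : 1 + ((n : ℂ) - 1) * (c : ℂ) ^ 2 = (A : ℂ) := by exact_mod_cast hrow
    rw [smul_mul_smul_comm, sub_mul, mul_sub, mul_sub, hGG, one_mul, mul_one, one_mul]
    ext i j
    simp only [Matrix.smul_apply, Matrix.add_apply, Matrix.sub_apply, smul_eq_mul]
    push_cast
    field_simp
    rw [← hrowC]
    ring
  · rw [div_pow, div_le_iff₀ (by positivity)]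
    have h5 : ((n : ℝ) - 1) * c ^ 2 = A - 1 := by linarith
    have h6 : (A - 2) ^ 2 * (d : ℝ) ^ 2 = ((n : ℝ) - 2 * d) ^ 2 := by
      rw [← hAd]; ring
    have h7 : 4 * (A - 2) ^ 2 * ((n : ℝ) - 1) ≤ 9 * (A - 1) := by
      have hd2 : (0 : ℝ) < (d : ℝ) ^ 2 := by positivity
      rw [← mul_le_mul_iff_of_pos_right hd2]
      have h8 : 9 * (A - 1) * (d : ℝ) ^ 2 = 9 / 4 * ((n : ℝ) ^ 2 - ((n : ℝ) - 2 * d) ^ 2) := by
        rw [← hAd]; ring
      have h9 : 4 * (A - 2) ^ 2 * ((n : ℝ) - 1) * (d : ℝ) ^ 2 =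
          4 * ((n : ℝ) - 1) * ((n : ℝ) - 2 * d) ^ 2 := by
        rw [← h6]; ring
      rw [h8, h9]
      have h10 : 0 ≤ ((n : ℝ) - 2 * d) ^ 2 := sq_nonneg _
      nlinarith
    have h11 : 0 < (n : ℝ) - 1 := by linarith
    rw [← mul_le_mul_iff_of_pos_right h11]
    have : 9 / 4 * c ^ 2 * ((n : ℝ) - 1) = 9 / 4 * (A - 1) := by rw [← h5]; ring
    rw [this]
    linarith
  · intro h12
    have : A = 2 := by
      rw [h12] at hAd
      exact mul_right_cancel₀ hd0.ne' hAd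
    rw [this]
    simp

end Pool.Agent.H54.Etf
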