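import Mathlib

/-!
# Two intermediate value arguments
-/

namespace Pool.Agent.H54.Etf

/-- regime I -/
lemma regime1 {q δ : ℝ} (hq : 3 ≤ q) (hδ : 0 ≤ δ) (h : δ ^ 2 ≤ (q - 3) / (q - 1)) :
    ∃ a t c s : ℝ, a ^ 2 + t ^ 2 = 1 ∧ c ^ 2 + s ^ 2 = 1 ∧ (q - 1) * c ^ 2 + 2 * a * c = 2 ∧
      s * t = -δ := by
  set m : ℝ := q - 1 with hm
  have hm2 : 2 ≤ m := by linarith
  have hm0 : m ≠ 0 := by linarith
  let c : ℝ → ℝ := fun a => (-a + √(a ^ 2 + 2 * m)) / m
  let g : ℝ → ℝ := fun a => (1 - c a ^ 2) * (1 - a ^ 2)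
  have hcc : Continuous c := by
    show Continuous fun a : ℝ => (-a + √(a ^ 2 + 2 * m)) / m
    fun_prop
  have hg : Continuous g := by
    show Continuous fun a : ℝ => (1 - c a ^ 2) * (1 - a ^ 2)
    fun_prop
  have hceq : ∀ a, (m * c a + a) ^ 2 = a ^ 2 + 2 * m := by
    intro a
    have : m * c a + a = √(a ^ 2 + 2 * m) := by
      show m * ((-a + √(a ^ 2 + 2 * m)) / m) + a = _
      field_simp
      ring
    rw [this, Real.sq_sqrt (by positivity)]
  have hceq' : ∀ a, m * c a ^ 2 + 2 * a * c a = 2 := by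
    intro a
    have h1 := hceq a
    have h2 : m * (m * c a ^ 2 + 2 * a * c a - 2) = 0 := by linear_combination h1
    rcases mul_eq_zero.1 h2 with h3 | h3
    · exact absurd h3 hm0
    · linarith
  have g0 : g 0 = (q - 3) / (q - 1) := by
    have h1 := hceq' 0
    have h2 : c 0 ^ 2 = 2 / m := by
      rw [eq_div_iff hm0]
      linarith
    show (1 - c 0 ^ 2) * (1 - 0 ^ 2) = _
    rw [h2, ← hm]
    have : q - 3 = m - 2 := by rw [hm]; ring
    rw [this]
    field_simp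
    ring
  have g1 : g 1 = 0 := by
    show (1 - c 1 ^ 2) * (1 - 1 ^ 2) = 0
    ring
  obtain ⟨a, ⟨ha0, ha1⟩, hga⟩ := intermediate_value_Icc' (zero_le_one' ℝ) hg.continuousOn
    (show δ ^ 2 ∈ Set.Icc (g 1) (g 0) from ⟨by rw [g1]; positivity, by rw [g0]; exact h⟩)
  have hsq0 : a ≤ √(a ^ 2 + 2 * m) := by
    apply Real.le_sqrt_of_sq_le
    linarith
  have hc0 : 0 ≤ c a := div_nonneg (by linarith) (by linarith)
  have hc1 : c a ≤ 1 := by
    show (-a + √(a ^ 2 + 2 * m)) / m ≤ 1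
    rw [div_le_one (by linarith)]
    have : √(a ^ 2 + 2 * m) ≤ m + a := by
      rw [Real.sqrt_le_left (by linarith)]
      nlinarith
    linarith
  have h1 : 0 ≤ 1 - c a ^ 2 := by nlinarith
  have h2 : 0 ≤ 1 - a ^ 2 := by nlinarith
  refine ⟨a, -√(1 - a ^ 2), c a, √(1 - c a ^ 2), ?_, ?_, hceq' a, ?_⟩
  · rw [neg_sq, Real.sq_sqrt h2]
    ring
  · rw [Real.sq_sqrt h1]
    ring
  · rw [mul_neg, ← Real.sqrt_mul h1]
    have h3 : (1 - c a ^ 2) * (1 - a ^ 2) = δ ^ 2 := hga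
    rw [h3, Real.sqrt_sq hδ]

/-- regime II -/
lemma regime2 {q k : ℝ} (hq : 5 ≤ q) (hk : 2 ≤ k) (h : q ^ 2 ≤ k * (2 * q - 1)) :
    ∃ c s c' s' : ℝ, c ^ 2 + s ^ 2 = 1 ∧ c' ^ 2 + s' ^ 2 = 1 ∧
      (k - 1) * ((q - 1) * c ^ 2 + 2 * c) + ((q - 1) * c' ^ 2 + 2 * c') = 2 * k ∧
      s * (1 - c') + s' * (1 - c) = 1 := by
  set m : ℝ := q - 1 with hm
  have hm2 : 4 ≤ m := by linarith
  have hm0 : m ≠ 0 := by linarith
  have hk1 : 0 < k - 1 := by linarith
  set t : ℝ := √(2 * q - 1) with ht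
  have ht2 : t ^ 2 = 2 * q - 1 := Real.sq_sqrt (by linarith)
  have ht3 : 3 ≤ t := by
    rw [ht]
    apply Real.le_sqrt_of_sq_le
    linarith
  have htq : t ≤ q := by nlinarith
  have hmt : m = (t ^ 2 - 1) / 2 := by rw [ht2, hm]; ring
  let R : ℝ → ℝ := fun v => (k * (2 * q - 1) - (1 + m * v) ^ 2) / (k - 1)
  let c : ℝ → ℝ := fun v => (-1 + √(R v)) / m
  let g : ℝ → ℝ := fun v => √(1 - c v ^ 2) * (1 - v) + √(1 - v ^ 2) * (1 - c v)
  have hR : Continuous R := by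
    show Continuous fun v : ℝ => (k * (2 * q - 1) - (1 + m * v) ^ 2) / (k - 1)
    fun_prop
  have hcc : Continuous c := by
    show Continuous fun v : ℝ => (-1 + √(R v)) / m
    fun_prop
  have hg : Continuous g := by
    show Continuous fun v : ℝ => √(1 - c v ^ 2) * (1 - v) + √(1 - v ^ 2) * (1 - c v)
    fun_prop
  set v0 : ℝ := (-1 - t) / m with hv0
  have hv0m : 1 + m * v0 = -t := by
    rw [hv0]
    field_simp
    ring
  have hv01 : v0 ≤ 1 := by
    rw [hv0, div_le_one (by linarith)]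
    linarith
  have hv0' : -1 ≤ v0 := by
    rw [hv0, le_div_iff₀ (by linarith)]
    nlinarith
  have hRpos : ∀ v, v0 ≤ v → v ≤ 1 → 0 ≤ R v := by
    intro v h0 h1
    apply div_nonneg _ hk1.le
    have h2 : -t ≤ 1 + m * v := by
      rw [← hv0m]
      nlinarith
    have h3 : 1 + m * v ≤ q := by nlinarith
    nlinarith
  have hRle : ∀ v, R v ≤ q ^ 2 := by
    intro v
    show (k * (2 * q - 1) - (1 + m * v) ^ 2) / (k - 1) ≤ q ^ 2
    rw [div_le_iff₀ hk1]
    nlinarith [sq_nonneg (1 + m * v)]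
  have hc1 : ∀ v, c v ≤ 1 := by
    intro v
    show (-1 + √(R v)) / m ≤ 1
    rw [div_le_one (by linarith)]
    have : √(R v) ≤ q := by
      rw [Real.sqrt_le_left (by linarith)]
      exact hRle v
    linarith
  have hc0 : ∀ v, -1 ≤ c v := by
    intro v
    show -1 ≤ (-1 + √(R v)) / m
    rw [le_div_iff₀ (by linarith)]
    have := Real.sqrt_nonneg (R v)
    linarith
  have g1 : g 1 = 0 := by
    show √(1 - c 1 ^ 2) * (1 - 1) + √(1 - 1 ^ 2) * (1 - c 1) = 0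
    norm_num
  have hR0 : R v0 = t ^ 2 := by
    show (k * (2 * q - 1) - (1 + m * v0) ^ 2) / (k - 1) = t ^ 2
    rw [hv0m, ← ht2, div_eq_iff hk1.ne']
    ring
  have hcv0 : c v0 = 2 / (t + 1) := by
    show (-1 + √(R v0)) / m = _
    rw [hR0, Real.sqrt_sq (by linarith), hmt]
    have h1 : t + 1 ≠ 0 := by linarith
    have h2 : t ^ 2 - 1 ≠ 0 := by nlinarith
    field_simp
    ring
  have hv0t : 1 - v0 = (t + 1) / (t - 1) := by
    rw [hv0, hmt]
    have h1 : t - 1 ≠ 0 := by linarith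
    have h2 : t ^ 2 - 1 ≠ 0 := by nlinarith
    field_simp
    ring
  have g0 : 1 ≤ g v0 := by
    have h1 : 1 ≤ √(1 - c v0 ^ 2) * (1 - v0) := by
      rw [hv0t, hcv0]
      have h3 : (0 : ℝ) ≤ (t + 1) / (t - 1) := div_nonneg (by linarith) (by linarith)
      rw [← Real.sqrt_sq h3, ← Real.sqrt_mul' _ (sq_nonneg _)]
      apply Real.le_sqrt_of_sq_le
      have h4 : (1 - (2 / (t + 1)) ^ 2) * ((t + 1) / (t - 1)) ^ 2 = (t + 3) / (t - 1) := by
        have h1 : t - 1 ≠ 0 := by linarith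
        have h2 : t + 1 ≠ 0 := by linarith
        field_simp
        ring
      rw [h4, one_pow, le_div_iff₀ (by linarith)]
      linarith
    have h2 : 0 ≤ √(1 - v0 ^ 2) * (1 - c v0) :=
      mul_nonneg (Real.sqrt_nonneg _) (by linarith [hc1 v0])
    show 1 ≤ √(1 - c v0 ^ 2) * (1 - v0) + √(1 - v0 ^ 2) * (1 - c v0)
    linarith
  obtain ⟨v, ⟨hv1, hv2⟩, hgv⟩ := intermediate_value_Icc' hv01 hg.continuousOn
    (show (1 : ℝ) ∈ Set.Icc (g 1) (g v0) from ⟨by rw [g1]; norm_num, g0⟩)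
  have h1 : 0 ≤ 1 - c v ^ 2 := by nlinarith [hc0 v, hc1 v]
  have h2 : 0 ≤ 1 - v ^ 2 := by nlinarith
  refine ⟨c v, √(1 - c v ^ 2), v, √(1 - v ^ 2), ?_, ?_, ?_, hgv⟩
  · rw [Real.sq_sqrt h1]
    ring
  · rw [Real.sq_sqrt h2]
    ring
  · have h3 : (1 + m * c v) ^ 2 = R v := by
      have : 1 + m * c v = √(R v) := by
        show 1 + m * ((-1 + √(R v)) / m) = _
        field_simp
        ring
      rw [this, Real.sq_sqrt (hRpos v hv1 hv2)]
    have h4 : (k - 1) * R v = k * (2 * q - 1) - (1 + m * v) ^ 2 := by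
      show (k - 1) * ((k * (2 * q - 1) - (1 + m * v) ^ 2) / (k - 1)) = _
      field_simp
    rw [← h3] at h4
    have h5 : m * ((k - 1) * (m * c v ^ 2 + 2 * c v) + (m * v ^ 2 + 2 * v) - 2 * k) = 0 := by
      have hqm : q = m + 1 := by rw [hm]; ring
      rw [hqm] at h4
      linear_combination h4
    rcases mul_eq_zero.1 h5 with h6 | h6
    · exact absurd h6 hm0
    · linarith

/-- one of the two regimes applies -/
lemma regimes {q k : ℝ} (hq : 5 ≤ q) (hk : 2 ≤ k) :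
    (1 - 1 / k) ^ 2 ≤ (q - 3) / (q - 1) ∨ q ^ 2 ≤ k * (2 * q - 1) := by
  by_cases h : q ^ 2 ≤ k * (2 * q - 1)
  · exact Or.inr h
  · left
    push Not at h
    have hk0 : 0 < k := by linarith
    have h1 : 1 - 1 / k = (k - 1) / k := by field_simp
    rw [h1, div_pow, div_le_div_iff₀ (by positivity) (by linarith)]
    have h2 : k ≤ q - 2 := by nlinarith
    nlinarith

end Pool.Agent.H54.Etf
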