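import Mathlib
import Pool.Agent.H37.EtfSig

/-!
# Twisted products of Hermitian conference matrices
-/

namespace Pool.Agent.H54.Etf

open Matrix Pool.Agent.H37.Etf Polynomial
open scoped Kronecker

section kron

variable {κ l : Type*} [Fintype κ] [DecidableEq κ] [Fintype l] [DecidableEq l]

/-- `S₀ ⊗ P + 1 ⊗ Q` is a signature matrix -/
lemma sig_kron {S₀ : Matrix κ κ ℂ} (h₀ : Sig S₀) {P Q : Matrix l l ℂ}
    (hP : P.IsHermitian) (hQ : Q.IsHermitian) (hPo : ∀ i j, ‖P i j‖ = 1)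
    (hQd : ∀ i, Q i i = 0) (hQo : ∀ i j, i ≠ j → ‖Q i j‖ = 1) (hPQ : P * Q + Q * P = 0)
    (hsq : ((Fintype.card κ : ℂ) - 1) • (P * P) + Q * Q =
      ((Fintype.card κ : ℂ) * Fintype.card l - 1) • (1 : Matrix l l ℂ)) :
    Sig (S₀ ⊗ₖ P + (1 : Matrix κ κ ℂ) ⊗ₖ Q) := by
  refine ⟨?_, ?_, ?_, ?_⟩
  · have h1 : S₀ᴴ = S₀ := h₀.herm
    have h2 : Pᴴ = P := hP
    have h3 : Qᴴ = Q := hQ
    rw [IsHermitian, conjTranspose_add, conjTranspose_kronecker, conjTranspose_kronecker, h1, h2,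
      h3, conjTranspose_one]
  · rintro ⟨i, a⟩
    rw [Matrix.add_apply, kroneckerMap_apply, kroneckerMap_apply, h₀.diag, hQd]
    ring
  · rintro ⟨i, a⟩ ⟨j, b⟩ hij
    rw [Matrix.add_apply, kroneckerMap_apply, kroneckerMap_apply]
    by_cases h : i = j
    · subst h
      have hab : a ≠ b := fun h => hij (by rw [h])
      rw [h₀.diag, one_apply_eq, zero_mul, zero_add, one_mul]
      exact hQo a b hab
    · rw [one_apply_ne h, zero_mul, add_zero, norm_mul, h₀.off i j h, hPo, one_mul]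
  · have e : (S₀ ⊗ₖ P + (1 : Matrix κ κ ℂ) ⊗ₖ Q) * (S₀ ⊗ₖ P + (1 : Matrix κ κ ℂ) ⊗ₖ Q) =
        (1 : Matrix κ κ ℂ) ⊗ₖ (((Fintype.card κ : ℂ) - 1) • (P * P) + Q * Q) +
          S₀ ⊗ₖ (P * Q + Q * P) := by
      rw [mul_add, add_mul, add_mul, ← mul_kronecker_mul, ← mul_kronecker_mul,
        ← mul_kronecker_mul, ← mul_kronecker_mul, h₀.sq, one_mul, mul_one, one_mul,
        kronecker_add, kronecker_add, smul_kronecker, kronecker_smul]
      abel
    rw [e, hPQ, hsq, kronecker_zero, add_zero, kronecker_smul, one_kronecker_one,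
      Fintype.card_prod]
    push_cast
    rfl

end kron

section frame

section ring

variable {R : Type*} [CommRing R]

/-- the matrix `P` -/
def P0 (u v b b' : R) : Matrix (Fin 4) (Fin 4) R :=
  !![u, v, b, -b; v, -u, b, b; b', b', -v, u; -b', b', u, v]

/-- the matrix `Q` -/
def Q0 (t u v b b' : R) : Matrix (Fin 4) (Fin 4) R :=
  !![u, v - t, b, -b; v + t, -u, b, b; b', b', -v, u + t; -b', b', u - t, v]

lemma P0_sq (u v b b' : R) :
    P0 u v b b' * P0 u v b b' = (u * u + v * v + 2 * (b * b')) • (1 : Matrix (Fin 4) (Fin 4) R) := by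
  refine Matrix.ext fun i j => ?_
  fin_cases i <;> fin_cases j <;>
    simp [P0, Matrix.mul_apply, Fin.sum_univ_four] <;> ring

lemma Q0_sq {t : R} (ht : t * t = -1) (u v b b' : R) :
    Q0 t u v b b' * Q0 t u v b b' =
      (u * u + v * v + 1 + 2 * (b * b')) • (1 : Matrix (Fin 4) (Fin 4) R) := by
  refine Matrix.ext fun i j => ?_
  fin_cases i <;> fin_cases j <;>
    simp [Q0, Matrix.mul_apply, Fin.sum_univ_four] <;>
    first | ring1 | linear_combination -ht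

lemma P0_Q0 (t u v b b' u' v' c c' : R) :
    P0 u v b b' * Q0 t u' v' c c' + Q0 t u' v' c c' * P0 u v b b' =
      (2 * (u * u' + v * v' + b * c' + b' * c)) • (1 : Matrix (Fin 4) (Fin 4) R) := by
  refine Matrix.ext fun i j => ?_
  rw [Matrix.add_apply, Matrix.mul_apply, Matrix.mul_apply, Fin.sum_univ_four, Fin.sum_univ_four]
  fin_cases i <;> fin_cases j <;> simp [P0, Q0] <;> ring

end ring

variable {κ ι : Type*} [Fintype κ] [DecidableEq κ] [Fintype ι] [DecidableEq ι]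

/-- evaluation at a matrix -/
noncomputable def ev (T : Matrix ι ι ℂ) :
    Matrix (Fin 4) (Fin 4) ℂ[X] →+* Matrix (Fin 4 × ι) (Fin 4 × ι) ℂ :=
  ((Matrix.compRingEquiv (Fin 4) ι ℂ) : _ →+* _).comp ((aeval T : ℂ[X] →ₐ[ℂ] Matrix ι ι ℂ) : ℂ[X] →+* Matrix ι ι ℂ).mapMatrix

lemma ev_apply (T : Matrix ι ι ℂ) (W : Matrix (Fin 4) (Fin 4) ℂ[X]) (a b : Fin 4) (x y : ι) :
    ev T W (a, x) (b, y) = (aeval T (W a b) : Matrix ι ι ℂ) x y := rfl

lemma ev_smul_one {T : Matrix ι ι ℂ} {p : ℂ[X]} {c : ℂ}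
    (h : (aeval T p : Matrix ι ι ℂ) = c • (1 : Matrix ι ι ℂ)) :
    ev T (p • (1 : Matrix (Fin 4) (Fin 4) ℂ[X])) = c • (1 : Matrix (Fin 4 × ι) (Fin 4 × ι) ℂ) := by
  refine Matrix.ext fun i j => ?_
  obtain ⟨a, x⟩ := i
  obtain ⟨b, y⟩ := j
  rw [ev_apply, Matrix.smul_apply, Matrix.smul_apply, smul_eq_mul, smul_eq_mul]
  by_cases hab : a = b
  · subst hab
    rw [Matrix.one_apply_eq, mul_one, h, Matrix.smul_apply, smul_eq_mul]
    by_cases hxy : x = y
    · subst hxy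
      rw [Matrix.one_apply_eq, Matrix.one_apply_eq]
    · rw [Matrix.one_apply_ne hxy, Matrix.one_apply_ne (fun h => hxy (Prod.ext_iff.1 h).2)]
  · rw [Matrix.one_apply_ne hab, mul_zero, map_zero, Matrix.zero_apply,
      Matrix.one_apply_ne (fun h => hab (Prod.ext_iff.1 h).1), mul_zero]

/-- the general frame lemma -/
lemma sig_frame {S₀ : Matrix κ κ ℂ} (h₀ : Sig S₀) {T : Matrix ι ι ℂ}
    {u v b b' u' v' c c' : ℂ[X]}
    (hu : (aeval T u : Matrix ι ι ℂ)ᴴ = aeval T u) (hv : (aeval T v : Matrix ι ι ℂ)ᴴ = aeval T v)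
    (hb : (aeval T b : Matrix ι ι ℂ)ᴴ = aeval T b')
    (hu' : (aeval T u' : Matrix ι ι ℂ)ᴴ = aeval T u')
    (hv' : (aeval T v' : Matrix ι ι ℂ)ᴴ = aeval T v')
    (hc : (aeval T c : Matrix ι ι ℂ)ᴴ = aeval T c')
    (fu : ∀ x y, ‖(aeval T u : Matrix ι ι ℂ) x y‖ = 1)
    (fv : ∀ x y, ‖(aeval T v : Matrix ι ι ℂ) x y‖ = 1)
    (fb : ∀ x y, ‖(aeval T b : Matrix ι ι ℂ) x y‖ = 1)
    (fc : ∀ x y, ‖(aeval T c : Matrix ι ι ℂ) x y‖ = 1)
    (du : ∀ x, (aeval T u' : Matrix ι ι ℂ) x x = 0)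
    (dv : ∀ x, (aeval T v' : Matrix ι ι ℂ) x x = 0)
    (fu' : ∀ x y, x ≠ y → ‖(aeval T u' : Matrix ι ι ℂ) x y‖ = 1)
    (fv' : ∀ x y, x ≠ y → ‖(aeval T v' : Matrix ι ι ℂ) x y‖ = 1)
    (h1 : (aeval T (C ((Fintype.card κ : ℂ) - 1) * (u * u + v * v + 2 * (b * b')) +
      (u' * u' + v' * v' + 1 + 2 * (c * c'))) : Matrix ι ι ℂ) =
        ((Fintype.card κ : ℂ) * (4 * Fintype.card ι) - 1) • (1 : Matrix ι ι ℂ))
    (h2 : (aeval T (u * u' + v * v' + b * c' + b' * c) : Matrix ι ι ℂ) = 0) :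
    ∃ S : Matrix (κ × (Fin 4 × ι)) (κ × (Fin 4 × ι)) ℂ, Sig S := by
  have hb' : (aeval T b' : Matrix ι ι ℂ)ᴴ = aeval T b := by
    rw [← hb, conjTranspose_conjTranspose]
  have hc' : (aeval T c' : Matrix ι ι ℂ)ᴴ = aeval T c := by
    rw [← hc, conjTranspose_conjTranspose]
  have fb' : ∀ x y, ‖(aeval T b' : Matrix ι ι ℂ) x y‖ = 1 := by
    intro x y
    rw [← hb, conjTranspose_apply, norm_star]
    exact fb y x
  have fc' : ∀ x y, ‖(aeval T c' : Matrix ι ι ℂ) x y‖ = 1 := by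
    intro x y
    rw [← hc, conjTranspose_apply, norm_star]
    exact fc y x
  have hCI : (aeval T (C Complex.I : ℂ[X]) : Matrix ι ι ℂ) = Complex.I • (1 : Matrix ι ι ℂ) := by
    rw [aeval_C, Algebra.algebraMap_eq_smul_one]
  have hCI' : (Complex.I • (1 : Matrix ι ι ℂ))ᴴ = -(Complex.I • (1 : Matrix ι ι ℂ)) := by
    rw [conjTranspose_smul, conjTranspose_one, Complex.star_def, Complex.conj_I, neg_smul]
  have herm : ∀ W : Matrix (Fin 4) (Fin 4) ℂ[X],
      (∀ a b, (aeval T (W a b) : Matrix ι ι ℂ)ᴴ = aeval T (W b a)) → (ev T W).IsHermitian := by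
    intro W hW
    refine Matrix.ext fun i j => ?_
    obtain ⟨a, x⟩ := i
    obtain ⟨b, y⟩ := j
    rw [conjTranspose_apply, ev_apply, ev_apply, ← hW b a, conjTranspose_apply]
  refine ⟨_, sig_kron h₀ (P := ev T (P0 u v b b')) (Q := ev T (Q0 (C Complex.I) u' v' c c'))
    (herm _ ?_) (herm _ ?_) ?_ ?_ ?_ ?_ ?_⟩
  · intro i j
    fin_cases i <;> fin_cases j <;> simp [P0, hu, hv, hb, hb']
  · intro i j
    fin_cases i <;> fin_cases j <;>
      simp [Q0, hu', hv', hc, hc', hCI, hCI', sub_eq_add_neg]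
  · rintro ⟨i, x⟩ ⟨j, y⟩
    rw [ev_apply]
    fin_cases i <;> fin_cases j <;> simp [P0, fu, fv, fb, fb']
  · rintro ⟨i, x⟩
    rw [ev_apply]
    fin_cases i <;> simp [Q0, du, dv]
  · rintro ⟨i, x⟩ ⟨j, y⟩ hij
    rw [ev_apply]
    by_cases hxy : x = y
    · subst hxy
      fin_cases i <;> fin_cases j <;> simp [Q0, du, dv, fc, fc', hCI] at hij ⊢
    · fin_cases i <;> fin_cases j <;>
        simp [Q0, fu', fv', fc, fc', hCI, hxy, Matrix.one_apply_ne hxy]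
  · rw [← map_mul, ← map_mul, ← map_add, P0_Q0]
    have : ev T ((2 * (u * u' + v * v' + b * c' + b' * c)) • (1 : Matrix (Fin 4) (Fin 4) ℂ[X])) =
        (0 : ℂ) • 1 := by
      apply ev_smul_one
      rw [map_mul, h2, mul_zero, zero_smul]
    rw [this, zero_smul]
  · have e1 : ((Fintype.card κ : ℂ) - 1) • (ev T (P0 u v b b') * ev T (P0 u v b b')) =
        ev T ((C ((Fintype.card κ : ℂ) - 1) * (u * u + v * v + 2 * (b * b'))) •
          (1 : Matrix (Fin 4) (Fin 4) ℂ[X])) := by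
      rw [← map_mul, P0_sq]
      refine Matrix.ext fun i j => ?_
      obtain ⟨a, x⟩ := i
      obtain ⟨b, y⟩ := j
      rw [Matrix.smul_apply, ev_apply, ev_apply]
      simp only [Matrix.smul_apply, smul_eq_mul]
      rw [mul_assoc, map_mul (aeval T) (C _), aeval_C, Algebra.algebraMap_eq_smul_one,
        smul_mul_assoc, one_mul, Matrix.smul_apply, smul_eq_mul]
    rw [e1, ← map_mul, Q0_sq (by rw [← C_mul, Complex.I_mul_I]; simp), ← map_add, ← add_smul,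
      ev_smul_one h1, Fintype.card_prod, Fintype.card_fin]
    push_cast
    rfl

end frame

end Pool.Agent.H54.Etf
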