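import Mathlib
import Pool.Agent.H54.Etf.Frame

/-!
# Twisted products, first form: `B Bᴴ + T² + 2 δ T = (2 n - 1)`, `δ = 1 - 1 / N₀`
-/

namespace Pool.Agent.H54.Etf

open Matrix Pool.Agent.H37.Etf Polynomial

variable {κ ι : Type*} [Fintype κ] [DecidableEq κ] [Fintype ι] [DecidableEq ι]

lemma sig_twist {S₀ : Matrix κ κ ℂ} (h₀ : Sig S₀) {T : Matrix ι ι ℂ} {b b' : ℂ[X]} {δ : ℂ}
    (hδ : (Fintype.card κ : ℂ) * δ = Fintype.card κ - 1)
    (hT : Tᴴ = T) (dT : ∀ x, T x x = 0) (fT : ∀ x y, x ≠ y → ‖T x y‖ = 1)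
    (hb : (aeval T b : Matrix ι ι ℂ)ᴴ = aeval T b')
    (fb : ∀ x y, ‖(aeval T b : Matrix ι ι ℂ) x y‖ = 1)
    (h : (aeval T (b * b' + X * X + C (2 * δ) * X) : Matrix ι ι ℂ) =
      (2 * (Fintype.card ι : ℂ) - 1) • (1 : Matrix ι ι ℂ)) :
    ∃ S : Matrix (κ × (Fin 4 × ι)) (κ × (Fin 4 × ι)) ℂ, Sig S := by
  have hX1 : (aeval T (X + 1 : ℂ[X]) : Matrix ι ι ℂ) = T + 1 := by simp
  have f1 : ∀ x y, ‖(T + 1) x y‖ = 1 := by
    intro x y
    by_cases hxy : x = y
    · subst hxy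
      rw [Matrix.add_apply, dT, one_apply_eq, zero_add, norm_one]
    · rw [Matrix.add_apply, one_apply_ne hxy, add_zero]
      exact fT x y hxy
  have hh1 : (T + 1)ᴴ = T + 1 := by rw [conjTranspose_add, hT, conjTranspose_one]
  have hI : (aeval T (C (-Complex.I) * b : ℂ[X]) : Matrix ι ι ℂ) = (-Complex.I) • aeval T b := by
    rw [map_mul, aeval_C, Algebra.algebraMap_eq_smul_one, smul_mul_assoc, one_mul]
  have hI' : (aeval T (C Complex.I * b' : ℂ[X]) : Matrix ι ι ℂ) = Complex.I • aeval T b' := by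
    rw [map_mul, aeval_C, Algebra.algebraMap_eq_smul_one, smul_mul_assoc, one_mul]
  refine sig_frame h₀ (T := T) (u := X + 1) (v := X + 1) (b := b) (b' := b') (u' := X) (v' := -X)
    (c := C (-Complex.I) * b) (c' := C Complex.I * b') ?_ ?_ hb ?_ ?_ ?_ ?_ ?_ fb ?_ ?_ ?_ ?_ ?_ ?_ ?_
  · rw [hX1, hh1]
  · rw [hX1, hh1]
  · rw [aeval_X, hT]
  · rw [map_neg, aeval_X, conjTranspose_neg, hT]
  · rw [hI, hI', conjTranspose_smul, hb]
    simp
  · rw [hX1]; exact f1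
  · rw [hX1]; exact f1
  · intro x y
    rw [hI, Matrix.smul_apply, smul_eq_mul, norm_mul, fb, mul_one, norm_neg, Complex.norm_I]
  · intro x
    rw [aeval_X, dT]
  · intro x
    rw [map_neg, aeval_X, Matrix.neg_apply, dT, neg_zero]
  · intro x y hxy
    rw [aeval_X, fT x y hxy]
  · intro x y hxy
    rw [map_neg, aeval_X, Matrix.neg_apply, norm_neg, fT x y hxy]
  · have hC : (C (-Complex.I) : ℂ[X]) * C Complex.I = 1 := by
      rw [← C_mul, neg_mul, Complex.I_mul_I, neg_neg, C_1]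
    have hk : (C (Fintype.card κ : ℂ) : ℂ[X]) * C δ = C (Fintype.card κ : ℂ) - 1 := by
      rw [← C_mul, hδ, C_sub, C_1]
    have e : (C ((Fintype.card κ : ℂ) - 1) * ((X + 1) * (X + 1) + (X + 1) * (X + 1) + 2 * (b * b')) +
        (X * X + -X * -X + 1 + 2 * (C (-Complex.I) * b * (C Complex.I * b'))) : ℂ[X]) =
        C (2 * (Fintype.card κ : ℂ)) * (b * b' + X * X + C (2 * δ) * X) +
          C (2 * (Fintype.card κ : ℂ) - 1) := by
      have e2 : (C (2 : ℂ) : ℂ[X]) = 2 := map_ofNat C 2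
      simp only [C_sub, C_mul, C_1, e2]
      linear_combination (2 * b * b') * hC - 4 * X * hk
    rw [e, map_add, map_mul, h, aeval_C, aeval_C, Algebra.algebraMap_eq_smul_one,
      Algebra.algebraMap_eq_smul_one, smul_mul_assoc, one_mul, smul_smul, ← add_smul]
    congr 1
    ring
  · have e : ((X + 1) * X + (X + 1) * -X + b * (C Complex.I * b') + b' * (C (-Complex.I) * b) : ℂ[X]) = 0 := by
      rw [C_neg]
      ring
    rw [e, map_zero]

/-- Theorem 1: product with an arbitrary two-eigenvalue signature matrix `T` -/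
lemma sig_prod {S₀ : Matrix κ κ ℂ} (h₀ : Sig S₀) (hk : 1 ≤ Fintype.card κ) {T : Matrix ι ι ℂ} {μ : ℝ}
    (hT : Tᴴ = T) (dT : ∀ x, T x x = 0) (fT : ∀ x y, x ≠ y → ‖T x y‖ = 1)
    (hsq : T * T = ((Fintype.card ι : ℂ) - 1) • (1 : Matrix ι ι ℂ) + (μ : ℂ) • T)
    (hμ0 : μ ≤ 0) (hμ : -(2 - 1 / (Fintype.card κ : ℝ)) ≤ μ) :
    ∃ S : Matrix (κ × (Fin 4 × ι)) (κ × (Fin 4 × ι)) ℂ, Sig S := by
  have hk' : (1 : ℝ) ≤ Fintype.card κ := by exact_mod_cast hk
  set δ : ℝ := 1 - 1 / (Fintype.card κ : ℝ) with hδ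
  have hδ0 : 0 ≤ δ := by
    rw [hδ, sub_nonneg, div_le_one (by linarith)]
    exact hk'
  have hδ1 : δ ≤ 1 := by
    rw [hδ]
    have : 0 ≤ 1 / (Fintype.card κ : ℝ) := by positivity
    linarith
  have hkδ : (Fintype.card κ : ℝ) * δ = Fintype.card κ - 1 := by
    rw [hδ]
    field_simp
  have hkδ' : (Fintype.card κ : ℂ) * (δ : ℂ) = Fintype.card κ - 1 := by exact_mod_cast hkδ
  set r : ℝ := -μ - δ with hr
  have hr1 : r ≤ 1 := by linarith
  have hr2 : -1 ≤ r := by linarith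
  have hr3 : 0 ≤ 1 - r ^ 2 := by nlinarith
  set w : ℂ := ⟨r, √(1 - r ^ 2)⟩ with hw
  have hwn : (starRingEnd ℂ) w * w = 1 := by
    rw [mul_comm, Complex.mul_conj, Complex.normSq_apply, hw]
    simp only
    rw [Real.mul_self_sqrt hr3]
    norm_cast
    ring
  have hw1 : ‖w‖ = 1 := by
    have h1 : (‖w‖ : ℂ) ^ 2 = 1 := by
      rw [← hwn, mul_comm, Complex.mul_conj, Complex.normSq_eq_norm_sq]
      push_cast
      rfl
    have h2 : ‖w‖ ^ 2 = 1 := by exact_mod_cast h1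
    have h3 := norm_nonneg w
    nlinarith
  have hwr : w + (starRingEnd ℂ) w = 2 * (r : ℂ) := by
    rw [Complex.add_conj]
    simp [hw]
  have ev1 : ∀ z : ℂ, (aeval T (1 + C z * X : ℂ[X]) : Matrix ι ι ℂ) = 1 + z • T := by
    intro z
    rw [map_add, map_one, map_mul, aeval_C, aeval_X, Algebra.algebraMap_eq_smul_one,
      smul_mul_assoc, one_mul]
  refine sig_twist h₀ (T := T) (b := 1 + C w * X) (b' := 1 + C ((starRingEnd ℂ) w) * X) hkδ' hT dT fT
    ?_ ?_ ?_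
  · rw [ev1, ev1, conjTranspose_add, conjTranspose_one, conjTranspose_smul, hT]
    rfl
  · intro x y
    rw [ev1, Matrix.add_apply, Matrix.smul_apply, smul_eq_mul]
    by_cases hxy : x = y
    · subst hxy
      rw [dT, one_apply_eq, mul_zero, add_zero, norm_one]
    · rw [one_apply_ne hxy, zero_add, norm_mul, hw1, fT x y hxy, one_mul]
  · rw [map_add, map_add, map_mul, map_mul, map_mul, ev1, ev1, aeval_C, aeval_X,
      Algebra.algebraMap_eq_smul_one, smul_mul_assoc, one_mul]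
    have e1 : (1 + w • T) * (1 + (starRingEnd ℂ) w • T) =
        1 + (w + (starRingEnd ℂ) w) • T + ((starRingEnd ℂ) w * w) • (T * T) := by
      rw [add_mul, mul_add, mul_add, one_mul, mul_one, one_mul, smul_mul_smul_comm, add_smul,
        mul_comm w]
      abel
    have h4 : (r : ℂ) = -(μ : ℂ) - (δ : ℂ) := by
      rw [hr]
      push_cast
      ring
    rw [e1, hwn, hwr, hsq, h4]
    module

end Pool.Agent.H54.Etf
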