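import Mathlib
import Pool.Agent.H37.EtfSymm
import Pool.Agent.H54.Etf.Twist
import Pool.Agent.H54.Etf.Ivt

/-!
# Twisted product with the core of a symmetric conference matrix
-/

namespace Pool.Agent.H54.Etf

open Matrix Pool.Agent.H37.Etf Polynomial

variable {κ ι : Type*} [Fintype κ] [DecidableEq κ] [Fintype ι] [DecidableEq ι]

/-- the matrix `x 1 + y J + z K` -/
def jk (K : Matrix ι ι ℂ) (x y z : ℂ) : Matrix ι ι ℂ :=
  x • (1 : Matrix ι ι ℂ) + y • Jm ι + z • K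

lemma jk_mul {K : Matrix ι ι ℂ} {n : ℂ} (hn : n = Fintype.card ι) (hKJ : K * Jm ι = 0)
    (hJK : Jm ι * K = 0)
    (hKK : K * K = n • (1 : Matrix ι ι ℂ) - Jm ι) (x y z x' y' z' : ℂ) :
    jk K x y z * jk K x' y' z' = jk K (x * x' + n * (z * z'))
      (x * y' + y * x' + n * (y * y') - z * z') (x * z' + z * x') := by
  have hJJ : Jm ι * Jm ι = n • Jm ι := by rw [hn]; exact Jm_mul_Jm
  simp only [jk, mul_add, add_mul, smul_mul_assoc, mul_smul_comm, mul_one, one_mul, hKJ, hJK, hKK,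
    hJJ, smul_zero, add_zero]
  module

lemma jk_conj {K : Matrix ι ι ℂ} (hK : Kᴴ = K) (x y z : ℂ) :
    (jk K x y z)ᴴ = jk K ((starRingEnd ℂ) x) ((starRingEnd ℂ) y) ((starRingEnd ℂ) z) := by
  simp only [jk, conjTranspose_add, conjTranspose_smul, conjTranspose_one, Jm_conj, hK]
  rfl

omit [Fintype ι] in
lemma jk_norm {K : Matrix ι ι ℂ} (hd : ∀ i, K i i = 0)
    (ho : ∀ i j, i ≠ j → K i j = 1 ∨ K i j = -1) {x y z : ℂ} (h1 : ‖x + y‖ = 1)
    (h2 : ‖y + z‖ = 1) (h3 : ‖y - z‖ = 1) (i j : ι) : ‖(jk K x y z) i j‖ = 1 := by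
  have e : (jk K x y z) i j = x * (1 : Matrix ι ι ℂ) i j + y + z * K i j := by
    simp [jk, Jm]
  rw [e]
  by_cases hij : i = j
  · subst hij
    rw [one_apply_eq, hd, mul_one, mul_zero, add_zero, h1]
  · rw [one_apply_ne hij, mul_zero, zero_add]
    rcases ho i j hij with h | h <;> rw [h]
    · rw [mul_one, h2]
    · rw [mul_neg_one, ← sub_eq_add_neg, h3]

/-- the polynomial giving `x 1 + y J + z K` -/
noncomputable def jp (n : ℂ) (x y z : ℂ) : ℂ[X] := C x + C y * (C n - X * X) + C z * X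

lemma aeval_jp {K : Matrix ι ι ℂ} {n : ℂ}
    (hKK : K * K = n • (1 : Matrix ι ι ℂ) - Jm ι) (x y z : ℂ) :
    (aeval K (jp n x y z) : Matrix ι ι ℂ) = jk K x y z := by
  simp only [jp, jk, map_add, map_sub, map_mul, aeval_C, aeval_X, hKK,
    Algebra.algebraMap_eq_smul_one, smul_mul_assoc, one_mul]
  congr 2
  rw [sub_sub_cancel]

lemma norm_aux {c s : ℝ} (h : c ^ 2 + s ^ 2 = 1) : ‖(c : ℂ) + Complex.I * (s : ℂ)‖ = 1 := by
  have : Complex.normSq ((c : ℂ) + Complex.I * (s : ℂ)) = 1 := by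
    rw [Complex.normSq_apply]
    simp
    nlinarith
  rw [← Real.sqrt_one, ← this, Complex.norm_def]

lemma norm_aux' {c s : ℝ} (h : c ^ 2 + s ^ 2 = 1) : ‖(c : ℂ) - Complex.I * (s : ℂ)‖ = 1 := by
  have := norm_aux (c := c) (s := -s) (by linarith [neg_sq s])
  rw [← this]
  congr 1
  push_cast
  ring

lemma cC {x y : ℝ} (h : x = y) : (x : ℂ) = (y : ℂ) := by rw [h]

/-- regime I -/
lemma sig_symm1 {S₀ : Matrix κ κ ℂ} (h₀ : Sig S₀) {δ : ℝ} {n : ℂ} (hn : n = Fintype.card ι)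
    (hδ : (Fintype.card κ : ℂ) * (δ : ℂ) = Fintype.card κ - 1) {K : Matrix ι ι ℂ}
    (hK : Kᴴ = K) (hd : ∀ i, K i i = 0) (ho : ∀ i j, i ≠ j → K i j = 1 ∨ K i j = -1)
    (hKJ : K * Jm ι = 0) (hJK : Jm ι * K = 0)
    (hKK : K * K = n • (1 : Matrix ι ι ℂ) - Jm ι) {a t c s : ℝ}
    (h1 : a ^ 2 + t ^ 2 = 1) (h2 : c ^ 2 + s ^ 2 = 1)
    (h3 : ((Fintype.card ι : ℝ) - 1) * c ^ 2 + 2 * a * c = 2) (h4 : s * t = -δ) :
    ∃ S : Matrix (κ × (Fin 4 × ι)) (κ × (Fin 4 × ι)) ℂ, Sig S := by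
  have fK : ∀ x y, x ≠ y → ‖K x y‖ = 1 := by
    intro x y hxy
    rcases ho x y hxy with h | h <;> rw [h] <;> simp
  have h1C : (a : ℂ) ^ 2 + (t : ℂ) ^ 2 = 1 := by exact_mod_cast cC h1
  have h2C : (c : ℂ) ^ 2 + (s : ℂ) ^ 2 = 1 := by exact_mod_cast cC h2
  have h3C : (n - 1) * (c : ℂ) ^ 2 + 2 * (a : ℂ) * c = 2 := by
    have := cC h3
    push_cast at this
    rw [hn]
    exact this
  have h4C : (s : ℂ) * t = -(δ : ℂ) := by exact_mod_cast cC h4
  refine sig_twist h₀ (T := K) (b := jp n ((a : ℂ) + Complex.I * t - c) c (Complex.I * s))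
    (b' := jp n ((a : ℂ) - Complex.I * t - c) c (-(Complex.I * s))) hδ hK hd fK ?_ ?_ ?_
  · rw [aeval_jp hKK, aeval_jp hKK, jk_conj hK]
    congr 1
    · simp
      ring
    · simp
    · simp
  · intro x y
    rw [aeval_jp hKK]
    refine jk_norm hd ho ?_ (norm_aux h2) (norm_aux' h2) x y
    rw [sub_add_cancel]
    exact norm_aux h1
  · have e1 : (aeval K (X * X + C (2 * (δ : ℂ)) * X : ℂ[X]) : Matrix ι ι ℂ) =
        jk K n (-1) (2 * (δ : ℂ)) := by
      rw [map_add, map_mul, map_mul, aeval_C, aeval_X, hKK, Algebra.algebraMap_eq_smul_one,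
        smul_mul_assoc, one_mul, jk, neg_one_smul, sub_eq_add_neg]
    rw [add_assoc, map_add, e1, map_mul, aeval_jp hKK, aeval_jp hKK, jk_mul hn hKJ hJK hKK]
    have hI := Complex.I_mul_I
    have e2 : ∀ x y z x' y' z' w : ℂ, x + x' = w → y + y' = 0 → z + z' = 0 →
        jk K x y z + jk K x' y' z' = w • (1 : Matrix ι ι ℂ) := by
      intro x y z x' y' z' w hx hy hz
      have : jk K x y z + jk K x' y' z' = (x + x') • (1 : Matrix ι ι ℂ) + (y + y') • Jm ι +
          (z + z') • K := by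
        rw [jk, jk]
        module
      rw [this, hx, hy, hz, zero_smul, zero_smul, add_zero, add_zero]
    apply e2
    · linear_combination (-(t : ℂ) ^ 2 - n * s ^ 2) * hI + h1C + n * h2C - h3C + 2 * hn
    · linear_combination (s : ℂ) ^ 2 * hI + h3C - h2C
    · linear_combination (-2 * (s : ℂ) * t) * hI + 2 * h4C

/-- regime II -/
lemma sig_symm2 {S₀ : Matrix κ κ ℂ} (h₀ : Sig S₀) {K : Matrix ι ι ℂ} {n k : ℂ}
    (hn : n = Fintype.card ι) (hk : k = Fintype.card κ)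
    (hK : Kᴴ = K) (hd : ∀ i, K i i = 0) (ho : ∀ i j, i ≠ j → K i j = 1 ∨ K i j = -1)
    (hKJ : K * Jm ι = 0) (hJK : Jm ι * K = 0)
    (hKK : K * K = n • (1 : Matrix ι ι ℂ) - Jm ι) {c s c' s' : ℝ}
    (h1 : c ^ 2 + s ^ 2 = 1) (h2 : c' ^ 2 + s' ^ 2 = 1)
    (h3 : ((Fintype.card κ : ℝ) - 1) * (((Fintype.card ι : ℝ) - 1) * c ^ 2 + 2 * c) +
      (((Fintype.card ι : ℝ) - 1) * c' ^ 2 + 2 * c') = 2 * Fintype.card κ)
    (h4 : s * (1 - c') + s' * (1 - c) = 1) :
    ∃ S : Matrix (κ × (Fin 4 × ι)) (κ × (Fin 4 × ι)) ℂ, Sig S := by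
  have h1C : (c : ℂ) ^ 2 + (s : ℂ) ^ 2 = 1 := by exact_mod_cast cC h1
  have h2C : (c' : ℂ) ^ 2 + (s' : ℂ) ^ 2 = 1 := by exact_mod_cast cC h2
  have h3C : (k - 1) * ((n - 1) * (c : ℂ) ^ 2 + 2 * c) + ((n - 1) * (c' : ℂ) ^ 2 + 2 * c') =
      2 * k := by
    have := cC h3
    push_cast at this
    rw [hn, hk]
    exact this
  have h4C : (s : ℂ) * (1 - c') + s' * (1 - c) = 1 := by exact_mod_cast cC h4
  have hI := Complex.I_mul_I
  have hu : (jp n 1 0 (-1) : ℂ[X]) = 1 - X := by simp [jp, sub_eq_add_neg]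
  have hv : (jp n (-1) 0 (-1) : ℂ[X]) = -1 - X := by simp [jp, sub_eq_add_neg]
  have hu' : (jp n 0 0 (-1) : ℂ[X]) = -X := by simp [jp]
  have hv' : (jp n 0 0 1 : ℂ[X]) = X := by simp [jp]
  refine sig_frame h₀ (T := K) (u := jp n 1 0 (-1)) (v := jp n (-1) 0 (-1))
    (b := jp n (1 - c) c (-(Complex.I * s))) (b' := jp n (1 - c) c (Complex.I * s))
    (u' := jp n 0 0 (-1)) (v' := jp n 0 0 1)
    (c := jp n (-(Complex.I * (1 - c'))) (-(Complex.I * c')) s')
    (c' := jp n (Complex.I * (1 - c')) (Complex.I * c') s')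
    ?_ ?_ ?_ ?_ ?_ ?_ ?_ ?_ ?_ ?_ ?_ ?_ ?_ ?_ ?_ ?_
  · rw [aeval_jp hKK, jk_conj hK]
    simp
  · rw [aeval_jp hKK, jk_conj hK]
    simp
  · rw [aeval_jp hKK, aeval_jp hKK, jk_conj hK]
    simp
  · rw [aeval_jp hKK, jk_conj hK]
    simp
  · rw [aeval_jp hKK, jk_conj hK]
    simp
  · rw [aeval_jp hKK, aeval_jp hKK, jk_conj hK]
    simp
  · intro x y
    rw [aeval_jp hKK]
    exact jk_norm hd ho (by simp) (by simp) (by simp) x y
  · intro x y
    rw [aeval_jp hKK]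
    exact jk_norm hd ho (by simp) (by simp) (by simp) x y
  · intro x y
    rw [aeval_jp hKK]
    refine jk_norm hd ho (by simp) ?_ ?_ x y
    · rw [← sub_eq_add_neg]
      exact norm_aux' h1
    · rw [sub_neg_eq_add]
      exact norm_aux h1
  · intro x y
    rw [aeval_jp hKK]
    refine jk_norm hd ho ?_ ?_ ?_ x y
    · have : -(Complex.I * (1 - (c' : ℂ))) + -(Complex.I * c') = -Complex.I := by ring
      rw [this]
      simp
    · have : -(Complex.I * (c' : ℂ)) + s' = -Complex.I * ((c' : ℂ) + Complex.I * s') := by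
        linear_combination (s' : ℂ) * hI
      rw [this, norm_mul, norm_aux h2]
      simp
    · have : -(Complex.I * (c' : ℂ)) - s' = -Complex.I * ((c' : ℂ) - Complex.I * s') := by
        linear_combination (-(s' : ℂ)) * hI
      rw [this, norm_mul, norm_aux' h2]
      simp
  · intro x
    rw [hu', map_neg, aeval_X, Matrix.neg_apply, hd, neg_zero]
  · intro x
    rw [hv', aeval_X, hd]
  · intro x y hxy
    rw [hu', map_neg, aeval_X, Matrix.neg_apply]
    rcases ho x y hxy with h | h <;> rw [h] <;> simp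
  · intro x y hxy
    rw [hv', aeval_X]
    rcases ho x y hxy with h | h <;> rw [h] <;> simp
  · rw [← hn, ← hk]
    simp only [map_add, map_mul, map_one, aeval_C, aeval_jp hKK, jk_mul hn hKJ hJK hKK,
      Algebra.algebraMap_eq_smul_one, smul_mul_assoc, one_mul]
    have e2 : (2 : ℂ[X]) = C 2 := (map_ofNat C 2).symm
    rw [e2, aeval_C, Algebra.algebraMap_eq_smul_one]
    simp only [smul_mul_assoc, one_mul]
    have e3 : ∀ x y z w : ℂ, x = w → y = 0 → z = 0 → jk K x y z = w • (1 : Matrix ι ι ℂ) := by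
      intro x y z w hx hy hz
      rw [hx, hy, hz, jk, zero_smul, zero_smul, add_zero, add_zero]
    have e4 : (1 : Matrix ι ι ℂ) = jk K 1 0 0 := by simp [jk]
    have e5 : ∀ x y z x' y' z' : ℂ, jk K x y z + jk K x' y' z' =
        jk K (x + x') (y + y') (z + z') := by
      intros
      simp only [jk]
      module
    have e6 : ∀ r x y z : ℂ, r • jk K x y z = jk K (r * x) (r * y) (r * z) := by
      intros
      simp only [jk]
      module
    conv_lhs => rw [e4]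
    simp only [e5, e6]
    apply e3
    · linear_combination (2 * (k - 1) * (-n * (s : ℂ) ^ 2) + 2 * (-(1 - (c' : ℂ)) ^ 2)) * hI +
        2 * (k - 1) * n * h1C + 2 * n * h2C - 2 * h3C
    · linear_combination (2 * (k - 1) * (s : ℂ) ^ 2 + 2 * (-(2 * (1 - (c' : ℂ)) * c' + n * c' ^ 2))) * hI -
        2 * (k - 1) * h1C - 2 * h2C + 2 * h3C
    · ring
  · simp only [map_add, map_mul, aeval_jp hKK, jk_mul hn hKJ hJK hKK]
    have e5 : ∀ x y z x' y' z' : ℂ, jk K x y z + jk K x' y' z' =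
        jk K (x + x') (y + y') (z + z') := by
      intros
      simp only [jk]
      module
    have e3 : ∀ x y z : ℂ, x = 0 → y = 0 → z = 0 → jk K x y z = 0 := by
      intro x y z hx hy hz
      rw [hx, hy, hz, jk, zero_smul, zero_smul, zero_smul, add_zero, add_zero]
    simp only [e5]
    apply e3
    · ring
    · ring
    · linear_combination (-2 * (s : ℂ) * (1 - c')) * hI + 2 * h4C

end Pool.Agent.H54.Etf
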