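import Mathlib
import Pool.Agent.H37.EtfSymm
import Pool.Agent.H37.EtfSkew
import Pool.Agent.H54.Etf.Symm
import Pool.Agent.H54.Etf.Gram

/-!
# Orders of Hermitian conference matrices: products and asymptotic existence
-/

namespace Pool.Agent.H54.Etf

open Matrix Pool.Agent.H37.Etf

/-- there is a Hermitian conference matrix of order `N` -/
def Ex (N : ℕ) : Prop :=
  ∃ (ι : Type) (_ : Fintype ι) (_ : DecidableEq ι) (S : Matrix ι ι ℂ), Sig S ∧ Fintype.card ι = N

/-- there is a complex equiangular tight frame of `N` vectors in `ℂ^M` -/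
def HasETF (N M : ℕ) : Prop := ∃ f : Fin N → EuclideanSpace ℂ (Fin M), IsETF f

lemma Ex.etf {M : ℕ} (hM : 1 ≤ M) (h : Ex (2 * M)) : HasETF (2 * M) M := by
  obtain ⟨ι, _, _, S, hS, hc⟩ := h
  obtain ⟨_, f, hf, _⟩ := hS.exists_etf M hM hc
  exact ⟨f, hf⟩

lemma Ex.double {N : ℕ} (h : Ex N) (k : ℕ) : Ex (2 ^ k * N) := by
  obtain ⟨ι, _, _, S, hS, hc⟩ := h
  obtain ⟨κ, h1, h2, S', hS', hc', _⟩ := hS.exists_double k
  exact ⟨κ, h1, h2, S', hS', by rw [hc', hc]⟩

lemma ex_two : Ex 2 := by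
  refine ⟨Fin 2, inferInstance, inferInstance, !![0, 1; 1, 0], ⟨?_, ?_, ?_, ?_⟩, by simp⟩
  · refine Matrix.ext fun i j => ?_
    fin_cases i <;> fin_cases j <;> simp
  · intro i
    fin_cases i <;> simp
  · intro i j hij
    fin_cases i <;> fin_cases j <;> simp at hij ⊢
  · refine Matrix.ext fun i j => ?_
    fin_cases i <;> fin_cases j <;> simp [Matrix.mul_apply, Fin.sum_univ_two] <;> norm_num

lemma Ex.prod {N : ℕ} (h : Ex N) (hN : 2 ≤ N) {ι : Type} [Fintype ι] [DecidableEq ι]
    {T : Matrix ι ι ℂ} {μ : ℝ} (hT : Tᴴ = T) (dT : ∀ x, T x x = 0)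
    (fT : ∀ x y, x ≠ y → ‖T x y‖ = 1)
    (hsq : T * T = ((Fintype.card ι : ℂ) - 1) • (1 : Matrix ι ι ℂ) + (μ : ℂ) • T)
    (hμ : μ ^ 2 ≤ 9 / 4) : Ex (4 * Fintype.card ι * N) := by
  obtain ⟨κ, _, _, S, hS, hc⟩ := h
  have hN' : (2 : ℝ) ≤ Fintype.card κ := by rw [hc]; exact_mod_cast hN
  have hb : (3 : ℝ) / 2 ≤ 2 - 1 / (Fintype.card κ : ℝ) := by
    have : 1 / (Fintype.card κ : ℝ) ≤ 1 / 2 :=
      one_div_le_one_div_of_le (by norm_num) hN'
    linarith
  have hμ1 : -(3 / 2) ≤ μ := by nlinarith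
  have hμ2 : μ ≤ 3 / 2 := by nlinarith
  have key : ∃ S : Matrix (κ × (Fin 4 × ι)) (κ × (Fin 4 × ι)) ℂ, Sig S := by
    rcases le_total μ 0 with h0 | h0
    · exact sig_prod hS (by omega) hT dT fT hsq h0 (by linarith)
    · refine sig_prod hS (by omega) (T := -T) (μ := -μ) ?_ ?_ ?_ ?_ (by linarith) (by linarith)
      · rw [conjTranspose_neg, hT]
      · intro x
        rw [Matrix.neg_apply, dT, neg_zero]
      · intro x y hxy
        rw [Matrix.neg_apply, norm_neg, fT x y hxy]
      · rw [neg_mul_neg, hsq]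
        push_cast
        rw [neg_smul, smul_neg, neg_neg]
  obtain ⟨S', hS'⟩ := key
  refine ⟨_, inferInstance, inferInstance, S', hS', ?_⟩
  rw [Fintype.card_prod, Fintype.card_prod, Fintype.card_fin, hc]
  ring

lemma HasETF.prod {M N d : ℕ} (hM : 1 ≤ M) (hN : 2 ≤ N) (h : Ex (2 * M)) (h' : HasETF N d)
    (hd : 16 * ((N : ℤ) - 2 * d) ^ 2 ≤ 9 * N) : Ex (2 * (4 * N * M)) := by
  obtain ⟨f, hf⟩ := h'
  obtain ⟨T, μ, h1, h2, h3, h4, h5, _⟩ := exists_signature hf hN (by exact_mod_cast hd)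
  have := h.prod (by omega) h1 h2 h3 (by rw [Fintype.card_fin]; exact h4) h5
  rw [Fintype.card_fin] at this
  rw [show 2 * (4 * N * M) = 4 * N * (2 * M) by ring]
  exact this

lemma HasETF.ex {M : ℕ} (hM : 1 ≤ M) (h : HasETF (2 * M) M) : Ex (2 * M) := by
  obtain ⟨f, hf⟩ := h
  obtain ⟨T, μ, h1, h2, h3, h4, _, h6⟩ := exists_signature hf (by omega) (by
    push_cast
    have : (1 : ℝ) ≤ M := by exact_mod_cast hM
    nlinarith)
  have h7 : μ = 0 := h6 (by push_cast; ring)
  refine ⟨Fin (2 * M), inferInstance, inferInstance, T, ⟨h1, h2, h3, ?_⟩, Fintype.card_fin _⟩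
  rw [h4, h7, Fintype.card_fin]
  simp

/-- product with the core of a skew conference matrix -/
lemma Ex.skew {N : ℕ} (h : Ex N) (hN : 2 ≤ N) {ι : Type} [Fintype ι] [DecidableEq ι]
    {K : Matrix ι ι ℤ} (hK : Core (-1) K) (h3 : 3 ≤ Fintype.card ι) :
    Ex (4 * Fintype.card ι * N) := by
  have hn : (3 : ℝ) ≤ Fintype.card ι := by exact_mod_cast h3
  set n : ℝ := (Fintype.card ι : ℝ) with hn'
  set x : ℝ := 1 / √(n + 1) with hx
  have hsq : √(n + 1) ^ 2 = n + 1 := Real.sq_sqrt (by linarith)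
  have hs0 : 0 < √(n + 1) := Real.sqrt_pos.2 (by linarith)
  have hx2 : x ^ 2 * (n + 1) = 1 := by
    rw [hx, div_pow, hsq, one_pow]
    field_simp
  have hx3 : x ^ 2 ≤ 1 / 4 := by nlinarith [sq_nonneg x]
  set y : ℝ := √(1 - x ^ 2) with hy
  have hy2 : y ^ 2 = 1 - x ^ 2 := Real.sq_sqrt (by nlinarith)
  have hxy : x ^ 2 + y ^ 2 = 1 := by linarith
  set C := cx K with hC
  have hCJ : C * Jm ι = 0 := hK.mul_Jm
  have hJC : Jm ι * C = 0 := hK.Jm_mul (by norm_num)
  have hCC : C * C = -((Fintype.card ι : ℂ) • (1 : Matrix ι ι ℂ) - Jm ι) := by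
    have := hK.mul_self
    simpa using this
  have hCH : Cᴴ = -C := by
    have := hK.conj
    simpa using this
  have hd : ∀ i, C i i = 0 := by
    intro i
    simp only [hC, cx, Matrix.map_apply, hK.diag i]
    simp
  have ho : ∀ i j, i ≠ j → C i j = 1 ∨ C i j = -1 := by
    intro i j hij
    simp only [hC, cx, Matrix.map_apply]
    rcases hK.off i j hij with h | h
    · left; rw [h]; simp
    · right; rw [h]; simp
  have hIC : (Complex.I • C)ᴴ = Complex.I • C := by
    rw [conjTranspose_smul, hCH]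
    simp
  have hI := Complex.I_mul_I
  have hKK : (Complex.I • C) * (Complex.I • C) =
      (Fintype.card ι : ℂ) • (1 : Matrix ι ι ℂ) - Jm ι := by
    rw [smul_mul_smul_comm, hI, hCC]
    module
  have hKJ : (Complex.I • C) * Jm ι = 0 := by rw [smul_mul_assoc, hCJ, smul_zero]
  have hJK : Jm ι * (Complex.I • C) = 0 := by rw [mul_smul_comm, hJC, smul_zero]
  have hxC : (x : ℂ) ^ 2 * ((Fintype.card ι : ℂ) + 1) = 1 := by
    have := cC hx2
    rw [hn'] at this
    push_cast at this
    exact this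
  have hyC : (y : ℂ) ^ 2 = 1 - (x : ℂ) ^ 2 := by exact_mod_cast cC hy2
  refine h.prod hN (T := jk (Complex.I • C) (-x) x y) (μ := -2 * x) ?_ ?_ ?_ ?_ ?_
  · rw [jk_conj hIC]
    simp
  · intro i
    simp [jk, Jm, hd]
  · intro i j hij
    have e : (jk (Complex.I • C) (-x) x y : Matrix ι ι ℂ) i j = (x : ℂ) + Complex.I * (y * C i j) := by
      simp [jk, Jm, one_apply_ne hij]
      ring
    rw [e]
    rcases ho i j hij with h | h <;> rw [h]
    · rw [mul_one]
      exact norm_aux hxy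
    · rw [mul_neg_one, mul_neg, ← sub_eq_add_neg]
      exact norm_aux' hxy
  · rw [jk_mul rfl hKJ hJK hKK]
    have : ∀ a b c a' b' c' : ℂ, ∀ r s : ℂ, a = r + s * a' → b = s * b' → c = s * c' →
        jk (Complex.I • C) a b c = r • (1 : Matrix ι ι ℂ) + s • jk (Complex.I • C) a' b' c' := by
      intro a b c a' b' c' r s ha hb hc
      rw [ha, hb, hc, jk, jk]
      module
    apply this
    · push_cast
      linear_combination (-1 : ℂ) * hxC + (Fintype.card ι : ℂ) * hyC
    · push_cast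
      linear_combination hxC - hyC
    · push_cast
      ring
  · nlinarith

/-- product with the core of a symmetric conference matrix -/
lemma Ex.symm {N : ℕ} (h : Ex N) (hN : 2 ≤ N) {ι : Type} [Fintype ι] [DecidableEq ι]
    {C : Matrix ι ι ℤ} (hC : Core 1 C) (h5 : 5 ≤ Fintype.card ι) :
    Ex (4 * Fintype.card ι * N) := by
  obtain ⟨κ, _, _, S, hS, hc⟩ := h
  have hN' : (2 : ℝ) ≤ Fintype.card κ := by rw [hc]; exact_mod_cast hN
  have hn : (5 : ℝ) ≤ Fintype.card ι := by exact_mod_cast h5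
  set K := cx C with hK
  have hKJ : K * Jm ι = 0 := hC.mul_Jm
  have hJK : Jm ι * K = 0 := hC.Jm_mul (by norm_num)
  have hKK : K * K = (Fintype.card ι : ℂ) • (1 : Matrix ι ι ℂ) - Jm ι := by
    have := hC.mul_self
    simpa using this
  have hKH : Kᴴ = K := by
    have := hC.conj
    simpa using this
  have hd : ∀ i, K i i = 0 := by
    intro i
    simp only [hK, cx, Matrix.map_apply, hC.diag i]
    simp
  have ho : ∀ i j, i ≠ j → K i j = 1 ∨ K i j = -1 := by
    intro i j hij
    simp only [hK, cx, Matrix.map_apply]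
    rcases hC.off i j hij with h | h
    · left; rw [h]; simp
    · right; rw [h]; simp
  have key : ∃ S : Matrix (κ × (Fin 4 × ι)) (κ × (Fin 4 × ι)) ℂ, Sig S := by
    rcases regimes hn hN' with h | h
    · have hδ0 : 0 ≤ 1 - 1 / (Fintype.card κ : ℝ) := by
        rw [sub_nonneg, div_le_one (by linarith)]
        linarith
      obtain ⟨a, t, c, s, h1, h2, h3, h4⟩ := regime1 (by linarith) hδ0 h
      refine sig_symm1 hS rfl ?_ hKH hd ho hKJ hJK hKK h1 h2 h3 h4
      push_cast
      have : (Fintype.card κ : ℂ) ≠ 0 := by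
        have : (Fintype.card κ : ℝ) ≠ 0 := by linarith
        exact_mod_cast this
      field_simp
    · obtain ⟨c, s, c', s', h1, h2, h3, h4⟩ := regime2 hn hN' h
      exact sig_symm2 hS rfl rfl hKH hd ho hKJ hJK hKK h1 h2 h3 h4
  obtain ⟨S', hS'⟩ := key
  refine ⟨_, inferInstance, inferInstance, S', hS', ?_⟩
  rw [Fintype.card_prod, Fintype.card_prod, Fintype.card_fin, hc]
  ring

lemma Ex.primePow {N : ℕ} (h : Ex N) (hN : 2 ≤ N) {q : ℕ} (hq : IsPrimePow q) (hq2 : Odd q) :
    Ex (4 * q * N) := by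
  have h2 := hq.two_le
  rcases Nat.odd_iff.1 hq2 with h3
  have h4 : q % 4 = 1 ∨ q % 4 = 3 := by omega
  rcases h4 with h4 | h4
  · obtain ⟨F, _, _, C, hc, hC⟩ := (exists_core_of_primePow hq).1 h4
    have := h.symm hN hC (by rw [hc]; omega)
    rwa [hc] at this
  · obtain ⟨F, _, _, C, hc, hC⟩ := (exists_core_of_primePow hq).2 h4
    have := h.skew hN hC (by rw [hc]; omega)
    rwa [hc] at this

lemma ex_primePow {q : ℕ} (hq : IsPrimePow q) (hq2 : Odd q) : Ex (2 * q) := by
  have h2 := hq.two_le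
  rcases Nat.odd_iff.1 hq2 with h3
  have h4 : q % 4 = 1 ∨ q % 4 = 3 := by omega
  rcases h4 with h4 | h4
  · obtain ⟨F, _, _, C, hc, hC⟩ := (exists_core_of_primePow hq).1 h4
    obtain ⟨S, hS⟩ := sig_of_symm_core hC (by rw [hc]; omega)
    exact ⟨_, inferInstance, inferInstance, S, hS, by rw [Fintype.card_sum, hc]; ring⟩
  · obtain ⟨F, _, _, C, hc, hC⟩ := (exists_core_of_primePow hq).2 h4
    have h5 : 3 ≤ Fintype.card F := by rw [hc]; omega
    have h6 : (0 : ℝ) < 1 / (4 * (Fintype.card F : ℝ)) := by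
      have : (3 : ℝ) ≤ Fintype.card F := by exact_mod_cast h5
      positivity
    obtain ⟨S, hS, _⟩ := sig_of_skew_core hC h5 (1 / (4 * (Fintype.card F : ℝ))) h6 (by
      have : (3 : ℝ) ≤ Fintype.card F := by exact_mod_cast h5
      apply one_div_lt_one_div_of_lt <;> linarith)
    exact ⟨_, inferInstance, inferInstance, S, hS, by rw [Fintype.card_sum, hc]; ring⟩

lemma card_primeFactors_mul {a b : ℕ} (h : Nat.Coprime a b) :
    (a * b).primeFactors.card = a.primeFactors.card + b.primeFactors.card := by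
  rw [h.primeFactors_mul, Finset.card_union_of_disjoint h.disjoint_primeFactors]

lemma Ex.odd (m : ℕ) : Odd m → ∀ N, 2 ≤ N → Ex N → Ex (4 ^ m.primeFactors.card * m * N) := by
  induction m using Nat.recOnPosPrimePosCoprime with
  | prime_pow p n hp hn =>
    intro h N hN hE
    rw [Nat.primeFactors_prime_pow hn.ne' hp, Finset.card_singleton, pow_one]
    exact hE.primePow hN (hp.isPrimePow.pow hn.ne') h
  | zero => intro h; exact absurd h (by decide)
  | one =>
    intro _ N _ hE
    simpa using hE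
  | coprime a b ha hb hab iha ihb =>
    intro h N hN hE
    rw [Nat.odd_mul] at h
    have h1 := ihb h.2 N hN hE
    have h2 := iha h.1 _ (le_trans hN (Nat.le_mul_of_pos_left N (by positivity))) h1
    rw [card_primeFactors_mul hab, pow_add]
    have e : 4 ^ a.primeFactors.card * 4 ^ b.primeFactors.card * (a * b) * N =
        4 ^ a.primeFactors.card * a * (4 ^ b.primeFactors.card * b * N) := by ring
    rw [e]
    exact h2

lemma ex_odd (m : ℕ) : Odd m → 1 < m → Ex (2 * (4 ^ (m.primeFactors.card - 1) * m)) := by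
  induction m using Nat.recOnPosPrimePosCoprime with
  | prime_pow p n hp hn =>
    intro h _
    rw [Nat.primeFactors_prime_pow hn.ne' hp, Finset.card_singleton]
    simpa using ex_primePow (hp.isPrimePow.pow hn.ne') h
  | zero => intro h; exact absurd h (by decide)
  | one => intro _ h; exact absurd h (by decide)
  | coprime a b ha hb hab iha ihb =>
    intro h _
    rw [Nat.odd_mul] at h
    have h1 := iha h.1 ha
    have ha0 : 1 ≤ a.primeFactors.card := by
      rw [Nat.one_le_iff_ne_zero, Ne, Finset.card_eq_zero, Nat.primeFactors_eq_empty]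
      omega
    have h2 := Ex.odd b h.2 _ (by
      have : 0 < 4 ^ (a.primeFactors.card - 1) * a := Nat.mul_pos (by positivity) (by omega)
      omega) h1
    rw [card_primeFactors_mul hab]
    have e : 2 * (4 ^ (a.primeFactors.card + b.primeFactors.card - 1) * (a * b)) =
        4 ^ b.primeFactors.card * b * (2 * (4 ^ (a.primeFactors.card - 1) * a)) := by
      rw [show a.primeFactors.card + b.primeFactors.card - 1 =
        b.primeFactors.card + (a.primeFactors.card - 1) by omega, pow_add]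
      ring
    rw [e]
    exact h2

lemma erase_two {a m : ℕ} (hm : Odd m) : (2 ^ a * m).primeFactors.erase 2 = m.primeFactors := by
  have hm0 : m ≠ 0 := by rintro rfl; exact absurd hm (by decide)
  ext p
  rw [Finset.mem_erase, Nat.mem_primeFactors, Nat.mem_primeFactors]
  constructor
  · rintro ⟨h1, h2, h3, _⟩
    refine ⟨h2, ?_, hm0⟩
    rcases (Nat.Prime.dvd_mul h2).1 h3 with h4 | h4
    · exact absurd ((Nat.prime_dvd_prime_iff_eq h2 Nat.prime_two).1 (h2.dvd_of_dvd_pow h4)) h1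
    · exact h4
  · rintro ⟨h1, h2, _⟩
    refine ⟨?_, h1, h2.mul_left _, by positivity⟩
    rintro rfl
    exact absurd h2 (by rw [← even_iff_two_dvd, Nat.not_even_iff_odd]; exact hm)

lemma ex_all (n k : ℕ) (hn : 1 ≤ n) (hk : 2 * ((n.primeFactors.erase 2).card - 1) ≤ k) :
    Ex (2 * (2 ^ k * n)) := by
  obtain ⟨a, m, hm, rfl⟩ := Nat.exists_eq_two_pow_mul_odd (n := n) (by omega)
  rw [erase_two hm] at hk
  rcases Nat.lt_or_ge 1 m with h1 | h1
  · have h2 := (ex_odd m hm h1).double (k + a - 2 * (m.primeFactors.card - 1))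
    have e : 2 * (2 ^ k * (2 ^ a * m)) = 2 ^ (k + a - 2 * (m.primeFactors.card - 1)) *
        (2 * (4 ^ (m.primeFactors.card - 1) * m)) := by
      rw [show (4 : ℕ) = 2 ^ 2 by norm_num, ← pow_mul]
      have : 2 ^ (k + a - 2 * (m.primeFactors.card - 1)) * 2 ^ (2 * (m.primeFactors.card - 1)) =
          2 ^ k * 2 ^ a := by
        rw [← pow_add, ← pow_add]
        congr 1
        omega
      calc 2 * (2 ^ k * (2 ^ a * m)) = 2 * m * (2 ^ k * 2 ^ a) := by ring
        _ = _ := by rw [← this]; ring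
    rw [e]
    exact h2
  · have h2 : m = 1 := by
      rcases Nat.odd_iff.1 hm with h3
      omega
    subst h2
    have h3 := ex_two.double (k + a)
    rw [mul_one, ← pow_add, mul_comm]
    exact h3

end Pool.Agent.H54.Etf
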